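import Pool.Agent.H44.LC.Main

set_option autoImplicit false

open scoped NNReal

namespace Pool.Agent.Results.MP_fe87ae_co.NeitherJoined

open H44LC

/-- The two start points are joined by a path of finite length. -/
lemma joined : ∃ γ : ℝ≥0 → X, LipschitzWith 1 γ ∧ γ 0 = stX (-1) hem1 ∧
    ∃ T : ℝ≥0, γ T = stX 1 he1 := by
  have hs0 : |1 - ug 0| = xg 0 := side_even 0
  have hs1 : |-1 - ug 1| = xg 1 := side_odd 0
  set m := max (Sg 0) (Sg 1) with hm
  have h0 : Sg 0 ≤ m := le_max_left _ _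
  have h1 : Sg 1 ≤ m := le_max_right _ _
  have hA0 := A_nonneg (show 0 ≤ wt 0 by linarith [wt_ge 0])
  have hA1 := A_nonneg (show 0 ≤ wt 1 by linarith [wt_ge 1])
  set T₀ := A (wt 0) + (m - Sg 0) with hT0
  set T₁ := A (wt 1) + (m - Sg 1) with hT1
  set q : ℝ → X := ex 1 he1 0 with hq
  set p : ℝ → X := ex (-1) hem1 1 with hp
  have hqL : LL q := ex_LL he1 hs0
  have hpL : LL p := ex_LL hem1 hs1
  have hq1 : q T₀ = Hp m := by
    rw [hq, ex_tail he1 (by linarith)]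
    congr 1
    rw [hT0]; ring
  have hp1 : p T₁ = Hp m := by
    rw [hp, ex_tail hem1 (by linarith)]
    congr 1
    rw [hT1]; ring
  have hr : LL (fun s => q (T₀ - s)) := by
    intro u v
    have := hqL (T₀ - u) (T₀ - v)
    rwa [show T₀ - u - (T₀ - v) = -(u - v) by ring, abs_neg] at this
  have hj : (fun s => q (T₀ - s)) 0 = p T₁ := by
    simp only [sub_zero]
    rw [hq1, hp1]
  refine ⟨fun s : ℝ≥0 => cat p T₁ (fun s => q (T₀ - s)) s, lip_of_LL (hpL.cat hr hj), ?_, ?_⟩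
  · simp only [NNReal.coe_zero]
    rw [cat_le (by linarith)]
    exact ex_zero hem1
  · refine ⟨(T₁ + T₀).toNNReal, ?_⟩
    simp only
    rw [Real.coe_toNNReal _ (by linarith), cat_ge hj (by linarith)]
    have : T₀ - (T₁ + T₀ - T₁) = 0 := by ring
    simp only [this]
    exact ex_zero he1

/-- There are a compact metric space and two start points, joined by a path of finite length, for
which neither the Lion nor the Christian has a winning strategy in the unbounded-time game. -/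
theorem result :
    ∃ (M : Type) (_ : MetricSpace M), CompactSpace M ∧ ∃ (x₀ y₀ : M),
      (∃ γ : ℝ≥0 → M, LipschitzWith 1 γ ∧ γ 0 = x₀ ∧ ∃ T : ℝ≥0, γ T = y₀) ∧
      (¬ ∃ F : (ℝ≥0 → M) → (ℝ≥0 → M),
          (∀ c : ℝ≥0 → M, LipschitzWith 1 c → c 0 = y₀ →
              LipschitzWith 1 (F c) ∧ F c 0 = x₀) ∧
          (∀ c c' : ℝ≥0 → M, LipschitzWith 1 c → c 0 = y₀ →
              LipschitzWith 1 c' → c' 0 = y₀ →
              ∀ t : ℝ≥0, (∀ s, s ≤ t → c s = c' s) → ∀ s, s ≤ t → F c s = F c' s) ∧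
          (∀ c : ℝ≥0 → M, LipschitzWith 1 c → c 0 = y₀ → ∃ t : ℝ≥0, F c t = c t)) ∧
      (¬ ∃ G : (ℝ≥0 → M) → (ℝ≥0 → M),
          (∀ l : ℝ≥0 → M, LipschitzWith 1 l → l 0 = x₀ →
              LipschitzWith 1 (G l) ∧ G l 0 = y₀) ∧
          (∀ l l' : ℝ≥0 → M, LipschitzWith 1 l → l 0 = x₀ →
              LipschitzWith 1 l' → l' 0 = x₀ →
              ∀ t : ℝ≥0, (∀ s, s ≤ t → l s = l' s) → ∀ s, s ≤ t → G l s = G l' s) ∧
          (∀ l : ℝ≥0 → M, LipschitzWith 1 l → l 0 = x₀ → ∀ t : ℝ≥0, G l t ≠ l t)) :=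
  ⟨X, inferInstance, inferInstance, stX (-1) hem1, stX 1 he1, joined, main⟩

end Pool.Agent.Results.MP_fe87ae_co.NeitherJoined
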